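import Mathlib
import Pool.Agent.H219R2.Cyc.LowerMain
import Pool.Agent.H219R2.Cyc.Upper

set_option autoImplicit false

namespace Pool.Agent.Results.MP_bc5e1d_co.CycleConstant

open Finset SimpleGraph Pool.Agent.Helper91.EC Pool.Agent.H219R2.Cyc

open Classical in
/-- `λ(G)`: the spectral radius of `G`, the largest eigenvalue of its adjacency matrix -/
noncomputable def specRad {V : Type} [Fintype V] (G : SimpleGraph V) : ℝ :=
  sSup {μ : ℝ | ∃ y : V → ℝ, y ≠ 0 ∧ (G.adjMatrix ℝ).mulVec y = μ • y}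

/-- `C` is admissible: for every `0 < ε < C` there is `n₀` such that for all `n ≥ n₀` every graph `G`
of order `n` with `λ(G) > √⌊n²/4⌋` contains a cycle of length `ℓ` for every integer
`3 ≤ ℓ ≤ (C - ε) n` -/
def Admissible (C : ℝ) : Prop :=
  ∀ ε : ℝ, 0 < ε → ε < C → ∃ n₀ : ℕ, ∀ n : ℕ, n₀ ≤ n → ∀ G : SimpleGraph (Fin n),
    √((n ^ 2 / 4 : ℕ) : ℝ) < specRad G →
      ∀ ℓ : ℕ, 3 ≤ ℓ → (ℓ : ℝ) ≤ (C - ε) * n → (cycleGraph ℓ) ⊑ G

theorem specRad_eq {V : Type} [Fintype V] (G : SimpleGraph V) : specRad G = lam G := rfl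

open Classical in
/-- sanity check: `specRad G` is indeed the greatest eigenvalue -/
theorem specRad_isGreatest {V : Type} [Fintype V] [Nonempty V] (G : SimpleGraph V) :
    IsGreatest {μ : ℝ | ∃ y : V → ℝ, y ≠ 0 ∧ (G.adjMatrix ℝ).mulVec y = μ • y} (specRad G) := by
  obtain ⟨x, hx0, hxne, heig, hall⟩ := lam_spec G
  constructor
  · refine ⟨x, hxne, ?_⟩
    funext v
    rw [mulVec_eq, heig v]
    simp [specRad_eq]
  · rintro μ ⟨y, hy, hμ⟩
    have h1 : ∀ v, nb G y v = μ * y v := by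
      intro v
      rw [← mulVec_eq, hμ]; simp
    have h2 := hall y
    have h3 : Q G y = μ * S2 y := by
      unfold Q S2
      rw [mul_sum]
      exact sum_congr rfl fun v _ => by rw [h1 v]; ring
    rw [h3] at h2
    exact le_of_mul_le_mul_right h2 (S2_pos y hy)

theorem const_facts : ((3 - √5) / 2) ^ 2 = 3 * ((3 - √5) / 2) - 1 ∧ 0.38 < (3 - √5) / 2 ∧
    (3 - √5) / 2 < 0.382 := by
  have h5 : √5 ^ 2 = 5 := Real.sq_sqrt (by norm_num)
  have h0 : 0 ≤ √5 := Real.sqrt_nonneg 5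
  refine ⟨by nlinarith, by nlinarith, by nlinarith⟩

theorem admissible_const : Admissible ((3 - √5) / 2) := by
  obtain ⟨hc, hc1, hc2⟩ := const_facts
  intro ε hε hεc
  obtain ⟨n0, hn0⟩ := lower_main ((3 - √5) / 2) hc hc1 hc2 ε hε hεc
  refine ⟨n0, fun n hn G hG ℓ h3 hℓ => ?_⟩
  classical
  obtain ⟨l, hl1, hl2⟩ := hn0 (Fin n) G (by rw [Fintype.card_fin]; exact hn)
    (by rw [Fintype.card_fin]; exact hG) ℓ h3 (by rw [Fintype.card_fin]; exact hℓ)
  rw [← hl1]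
  exact contained_of_cycList G l (by omega) hl2

/-- the largest admissible constant is `(3 - √5)/2` -/
theorem result : IsGreatest {C : ℝ | 0 < C ∧ Admissible C} ((3 - √5) / 2) := by
  obtain ⟨hc, hc1, hc2⟩ := const_facts
  refine ⟨⟨by linarith, admissible_const⟩, ?_⟩
  rintro C ⟨hC0, hC⟩
  by_contra hlt
  push Not at hlt
  obtain ⟨n0, hn0⟩ := hC ((C - (3 - √5) / 2) / 2) (by linarith) (by linarith)
  obtain ⟨n, G, ℓ, h1, h2, h3, h4, h5⟩ := joinG_example ((3 - √5) / 2)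
    (C - (C - (3 - √5) / 2) / 2) hc hc1 hc2 (by linarith) n0
  exact h5 (hn0 n h1 G h2 ℓ h3 h4)

end Pool.Agent.Results.MP_bc5e1d_co.CycleConstant
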